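import Mathlib
import Pool.Agent.Lib.MP_537007_co.Acyc

set_option autoImplicit false

namespace Pool.Agent.Results.MP_537007_co.DenseSub

open Pool.Agent.Lib.MP_537007_co

/-- `G` is the intersection graph of a family of closed axis-parallel boxes in `ℝ^k`. -/
def IsBoxGraph {V : Type} (G : SimpleGraph V) (k : ℕ) : Prop :=
  ∃ l r : V → Fin k → ℝ, (∀ v, l v ≤ r v) ∧
    ∀ u v : V, u ≠ v → (G.Adj u v ↔ (Set.Icc (l u) (r u) ∩ Set.Icc (l v) (r v)).Nonempty)

theorem rep_of_isBoxGraph {V : Type} (G : SimpleGraph V) {k d : ℕ} (hk : k ≤ d)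
    (h : IsBoxGraph G k) : Acyc.Rep G d := by
  obtain ⟨l, r, hlr, h⟩ := h
  refine ⟨fun v i => if hi : i.1 < k then l v ⟨i.1, hi⟩ else 0,
    fun v i => if hi : i.1 < k then r v ⟨i.1, hi⟩ else 0, fun u v huv => ?_⟩
  rw [h u v huv, Set.Icc_inter_Icc, Set.nonempty_Icc, sup_le_iff, le_inf_iff, le_inf_iff]
  constructor
  · rintro ⟨⟨-, H1⟩, H2, -⟩ i
    by_cases hi : i.1 < k
    · simp only [hi, dite_true]; exact ⟨H1 _, H2 _⟩
    · simp [hi]
  · intro H
    refine ⟨⟨hlr u, fun j => ?_⟩, fun j => ?_, hlr v⟩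
    · simpa [j.2] using (H ⟨j.1, lt_of_lt_of_le j.2 hk⟩).1
    · simpa [j.2] using (H ⟨j.1, lt_of_lt_of_le j.2 hk⟩).2

/-- A finite graph of average degree `D` with `4 d log₂ (D + 1) < D` has a spanning subgraph of
boxicity greater than `d`. -/
theorem result {V : Type} [Fintype V] (G : SimpleGraph V) (d : ℕ) (D : ℝ)
    (hD : D = 2 * (Nat.card G.edgeSet : ℝ) / (Fintype.card V : ℝ))
    (h : 4 * (d : ℝ) * Real.logb 2 (D + 1) < D) :
    ∃ H : SimpleGraph V, H ≤ G ∧ ∀ k ≤ d, ¬ IsBoxGraph H k := by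
  by_contra hcon
  push Not at hcon
  refine absurd (Acyc.avg_le G d D hD (fun H hH => ?_)) (not_le.2 h)
  obtain ⟨k, hk, hb⟩ := hcon H hH
  exact rep_of_isBoxGraph H hk hb

end Pool.Agent.Results.MP_537007_co.DenseSub
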