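import Mathlib
import Pool.Agent.Lib.MP_537007_co.Acyc
import Pool.Agent.Lib.MP_537007_co.Grid

set_option autoImplicit false

namespace Pool.Agent.Results.MP_537007_co.Four

open Pool.Agent.Lib.MP_537007_co

/-- `F` is a pairwise suitable family of linear orders for `G`: for any two disjoint edges
`ab`, `cd` some order of the family puts both ends of one before both ends of the other. -/
def PairwiseSuitable {V ι : Type} (G : SimpleGraph V) (F : ι → LinearOrder V) : Prop :=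
  ∀ a b c d : V, G.Adj a b → G.Adj c d → a ≠ c → a ≠ d → b ≠ c → b ≠ d →
    ∃ i, ((F i).lt a c ∧ (F i).lt a d ∧ (F i).lt b c ∧ (F i).lt b d) ∨
      ((F i).lt c a ∧ (F i).lt d a ∧ (F i).lt c b ∧ (F i).lt d b)

/-- `G` is the intersection graph of a family of closed axis-parallel boxes in `ℝ^k`. -/
def IsBoxGraph {V : Type} (G : SimpleGraph V) (k : ℕ) : Prop :=
  ∃ l r : V → Fin k → ℝ, (∀ v, l v ≤ r v) ∧
    ∀ u v : V, u ≠ v → (G.Adj u v ↔ (Set.Icc (l u) (r u) ∩ Set.Icc (l v) (r v)).Nonempty)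

theorem rep_of_isBoxGraph {V : Type} (G : SimpleGraph V) {k d : ℕ} (hk : k ≤ d)
    (h : IsBoxGraph G k) : Acyc.Rep G d := by
  obtain ⟨l, r, hlr, h⟩ := h
  refine ⟨fun v i => if hi : i.1 < k then l v ⟨i.1, hi⟩ else 0,
    fun v i => if hi : i.1 < k then r v ⟨i.1, hi⟩ else 0, fun u v huv => ?_⟩
  rw [h u v huv, Set.Icc_inter_Icc, Set.nonempty_Icc, sup_le_iff, le_inf_iff, le_inf_iff]
  constructor
  · rintro ⟨⟨-, H1⟩, H2, -⟩ i
    by_cases hi : i.1 < k
    · simp only [hi, dite_true]; exact ⟨H1 _, H2 _⟩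
    · simp [hi]
  · intro H
    refine ⟨⟨hlr u, fun j => ?_⟩, fun j => ?_, hlr v⟩
    · simpa [j.2] using (H ⟨j.1, lt_of_lt_of_le j.2 hk⟩).1
    · simpa [j.2] using (H ⟨j.1, lt_of_lt_of_le j.2 hk⟩).2

/-- Whenever `4 d log₂ (k + 1) < k` there is a graph on `2 k ^ k` vertices with separation
dimension at most `4` and boxicity greater than `d`. -/
theorem result (k d : ℕ) (h : 4 * (d : ℝ) * Real.logb 2 ((k : ℝ) + 1) < k) :
    ∃ (V : Type) (_ : Fintype V) (G : SimpleGraph V), Nat.card V = 2 * k ^ k ∧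
      (∃ F : Fin 4 → LinearOrder V, PairwiseSuitable G F) ∧ ∀ j ≤ d, ¬ IsBoxGraph G j := by
  obtain _ | t := k
  · simp at h
  have hex : ∃ H : SimpleGraph (Grid.Pt t ⊕ Grid.Ln t), H ≤ Grid.gr t ∧
      ∀ j ≤ d, ¬ IsBoxGraph H j := by
    by_contra hcon
    push Not at hcon
    refine absurd (Acyc.avg_le (Grid.gr t) d ((t + 1 : ℕ) : ℝ) ?_ (fun H hH => ?_)) (not_le.2 h)
    · rw [Grid.card_edge, Grid.card_vert]
      push_cast
      field_simp
    · obtain ⟨j, hj, hb⟩ := hcon H hH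
      exact rep_of_isBoxGraph H hj hb
  obtain ⟨H, hH, hb⟩ := hex
  obtain ⟨F, hF⟩ := Grid.four_orders t
  refine ⟨_, inferInstance, H, ?_, ⟨F, fun a b c e hab hce => hF a b c e (hH hab) (hH hce)⟩, hb⟩
  rw [Nat.card_eq_fintype_card, Grid.card_vert]

end Pool.Agent.Results.MP_537007_co.Four
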